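import Pool.Agent.Lib.MP_0e3b4a_gt.All2

/-! # Cut loci in Carnot groups: smooth points and degenerate strictly abnormal minimisers -/

set_option autoImplicit false

namespace Pool.Agent.Results.MP_0e3b4a_gt.Dichotomy

open MeasureTheory Pool.Agent.CutLoci

/-- In every nontrivial Carnot group almost every point is a smooth point for the identity, or the
endpoint of a degenerate strictly abnormal minimiser. -/
theorem result (g : Type) [NormedAddCommGroup g] [NormedSpace ℝ g] [FiniteDimensional ℝ g]
    [Nontrivial g] [MeasurableSpace g] [BorelSpace g] (μ : Measure g) [μ.IsAddHaarMeasure]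
    (r : ℕ) (C : Carnot g r) :
    ∀ᵐ x ∂μ, C.Smooth x ∨
      ∃ u, C.IsMin u x ∧ (¬ ∃ l, C.IsNormal u l) ∧ ∃ l, C.Degenerate u l :=
  All.thm_A2 μ C

end Pool.Agent.Results.MP_0e3b4a_gt.Dichotomy
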