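import Pool.Agent.Lib.MP_0e3b4a_gt.All2

/-! # Negligible cut loci in Carnot groups of rank two and step at most six -/

set_option autoImplicit false

namespace Pool.Agent.Results.MP_0e3b4a_gt.RankTwo

open MeasureTheory Pool.Agent.CutLoci

/-- Every Carnot group of rank two and step at most six has negligible cut loci, and so has every
one of step seven with `[V₂, V₅] = [V₃, V₄] = 0`. -/
theorem result (g : Type) [NormedAddCommGroup g] [NormedSpace ℝ g] [FiniteDimensional ℝ g]
    [MeasurableSpace g] [BorelSpace g] (μ : Measure g) [μ.IsAddHaarMeasure] (C : Carnot g 2)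
    (h : C.s ≤ 6 ∨ (C.s = 7 ∧ (∀ x ∈ C.V 2, ∀ y ∈ C.V 5, C.br x y = 0) ∧
      ∀ x ∈ C.V 3, ∀ y ∈ C.V 4, C.br x y = 0)) :
    μ C.cut = 0 := by
  rcases h with h | ⟨h, h25, h34⟩
  · exact All.thm_D7 μ C (All.deg6_of_le C h)
  · exact All.thm_D7 μ C ⟨h.le, h25, h34⟩

end Pool.Agent.Results.MP_0e3b4a_gt.RankTwo
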