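import Pool.Agent.Lib.MP_0e3b4a_gt.H14.All

/-! # Carnot groups of rank two: covectors on the second derived algebra; metabelian groups of
every step have negligible cut loci -/

set_option autoImplicit false

namespace Pool.Agent.Results.MP_0e3b4a_gt.RankTwoMetabelian

open MeasureTheory Pool.Agent.CutLoci

/-- Let `C` be a Carnot group of rank two. Almost no point is the endpoint of a horizontal curve
which has a nonzero annihilating covector vanishing on `[[g, g], [g, g]]`, and almost every point
is smooth or the endpoint of an abnormal minimiser which is not normal. If `g` is metabelian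
(of any step), the cut locus is a null set. -/
theorem result (g : Type) [NormedAddCommGroup g] [NormedSpace ℝ g] [FiniteDimensional ℝ g]
    [MeasurableSpace g] [BorelSpace g] (μ : Measure g) [μ.IsAddHaarMeasure] (C : Carnot g 2) :
    (∀ᵐ x ∂μ, (∀ u, C.Joins u x → ∀ γ, C.IsCurve u γ → ∀ l : g →L[ℝ] ℝ, l ≠ 0 →
      (∀ t ∈ Set.Icc (0 : ℝ) 1, ∀ a, l (Carnot.lin (γ t) (C.X a)) = 0) →
      ∃ y z y' z', l (C.br (C.br y z) (C.br y' z')) ≠ 0) ∧
      (C.Smooth x ∨ ∃ u, C.IsMin u x ∧ C.Abnormal u ∧ ¬ ∃ l, C.IsNormal u l)) ∧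
    ((∀ x y z w, C.br (C.br x y) (C.br z w) = 0) → μ C.cut = 0) :=
  ⟨Pool.Agent.MetSard.ae_min Pool.Agent.MetSard.planarS μ C,
    Pool.Agent.MetSard.metabelian Pool.Agent.MetSard.planarS μ C⟩

end Pool.Agent.Results.MP_0e3b4a_gt.RankTwoMetabelian
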