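import Pool.Agent.Lib.MP_0e3b4a_gt.All
import Pool.Agent.Lib.MP_0e3b4a_gt.Asm8

/-! # Negligible cut loci in Carnot groups: algebraic criteria -/

set_option autoImplicit false

namespace Pool.Agent.Results.MP_0e3b4a_gt.ThirdOrder

open MeasureTheory Pool.Agent.CutLoci

/-- With `U_c = V₁ + V₂ + [[c, V₁], V₁]`: if for almost every `y = exp x` one has
`g = U_c + Ad_y U_c'` for all nonzero `c`, `c'` in `V₁`, then the cut locus is negligible.
With `U = V₁ + V₂`, or `U = V₁ + V₂ + V₃` in rank two, it is enough that `g = U + Ad_y U` for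
one `y`. -/
theorem result (g : Type) [NormedAddCommGroup g] [NormedSpace ℝ g] [FiniteDimensional ℝ g]
    [Nontrivial g] [MeasurableSpace g] [BorelSpace g] (μ : Measure g) [μ.IsAddHaarMeasure]
    (r : ℕ) (C : Carnot g r)
    (h : (∀ᵐ x ∂μ, ∀ c c' : EE r, c ≠ 0 → c' ≠ 0 →
        C.U3 c ⊔ (C.U3 c').map (Carnot.lin (C.pt x)).toLinearMap = ⊤) ∨
      ∃ U : Submodule ℝ g, (U = C.V 1 ⊔ C.V 2 ∨ (r = 2 ∧ U = C.V 1 ⊔ C.V 2 ⊔ C.V 3)) ∧
        ∃ x, U ⊔ U.map (Carnot.lin (C.pt x)).toLinearMap = ⊤) :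
    μ C.cut = 0 := by
  rcases h with h | ⟨U, hU, h⟩
  · exact main_B3 (All.curveHyp g r) (All.nuni g r) (All.dicho g r) μ C h
  · rcases hU with rfl | ⟨rfl, rfl⟩
    · exact All.thm_B μ C h
    · exact All.thm_C μ C h

end Pool.Agent.Results.MP_0e3b4a_gt.ThirdOrder
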